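import Pool.Agent.H7.OPP.Stmts

set_option autoImplicit false

namespace Pool.OPP

open scoped ComplexConjugate

theorem sGa (hE : SEl) (hEA : SEla) (hGC : SGc) : SGa := by
  intro k s t hs ht h
  obtain ⟨⟨C, hC⟩, hG⟩ := hGC k s t hs ht h
  refine ⟨?_, ?_, ?_, ?_, ?_, ?_⟩
  · ext1 x
    obtain ⟨_, hG'⟩ := hGC k t s ht hs (star h)
    have h2 := (hEA.2.1 k s t hs ht (fun T => h (pt x T)) C (fun T => hC x T)).2.1
    rw [hG']
    change star (GG k s t h x) = _
    rw [hG x, h2]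
    rfl
  · intro t' r ht' hr h'
    obtain ⟨⟨D, hD⟩, hG'⟩ := hGC k t' r ht' hr h'
    ext1 x
    have h2 := (hEA.2.1 k s t hs ht (fun T => h (pt x T)) C (fun T => hC x T)).2.2.1 t' r ht' hr
      (fun T => h' (pt x T)) D (fun T => hD x T)
    change GG k s t h x * GG k t' r h' x = _
    rw [hG x, hG' x, h2]
    split_ifs with htt
    · rw [(hGC k s r hs hr (h * h')).2 x]
      rfl
    · rfl
  · intro h'
    obtain ⟨⟨D, hD⟩, hG'⟩ := hGC k s t hs ht h'
    ext1 x
    have h2 := (hEA.2.1 k s t hs ht (fun T => h (pt x T)) C (fun T => hC x T)).2.2.2.1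
      (fun T => h' (pt x T)) D (fun T => hD x T)
    change GG k s t h x + GG k s t h' x = _
    rw [hG x, hG' x, h2, (hGC k s t hs ht (h + h')).2 x]
    rfl
  · intro c
    ext1 x
    have h2 := (hEA.2.1 k s t hs ht (fun T => h (pt x T)) C (fun T => hC x T)).2.2.2.2 c
    change c • GG k s t h x = _
    rw [hG x, h2, (hGC k s t hs ht (c • h)).2 x]
    rfl
  · refine (ContinuousMap.norm_le _ (norm_nonneg h)).2 fun x => ?_
    rw [hG x]
    exact (hE k s t hs ht (fun T => h (pt x T)) ‖h‖ (fun T => h.norm_coe_le_norm _)).2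
  · ext1 x
    have h3 := hEA.2.2 k
    have : (∑ s ∈ JJ k, GG k s s 1) x = ∑ s ∈ JJ k, (GG k s s 1) x := by
      rw [ContinuousMap.coe_sum, Finset.sum_apply]
    rw [this]
    change _ = (1 : BH)
    rw [← h3]
    refine Finset.sum_congr rfl fun s hs => ?_
    rw [(hGC k s s hs hs 1).2 x]
    rfl

end Pool.OPP
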