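import Pool.Agent.H7.OPP.Stmts

set_option autoImplicit false

namespace Pool.OPP

open scoped ComplexConjugate

lemma VCT_ph (z : ℂ) : ‖z - ph z‖ = |‖z‖ - 1| := by
  unfold ph
  split_ifs with h
  · subst h
    simp
  · have h0 : ‖z‖ ≠ 0 := norm_ne_zero_iff.mpr h
    have e1 : z - z / (‖z‖ : ℂ) = z * (((‖z‖ - 1) / ‖z‖ : ℝ) : ℂ) := by
      have : (‖z‖ : ℂ) ≠ 0 := by exact_mod_cast h0
      push_cast
      field_simp
    rw [e1, norm_mul, Complex.norm_real, Real.norm_eq_abs, abs_div, abs_norm]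
    field_simp

lemma VCT_ph_norm (z : ℂ) : ‖ph z‖ = 1 := by
  unfold ph
  split_ifs with h
  · simp
  · have h0 : ‖z‖ ≠ 0 := norm_ne_zero_iff.mpr h
    rw [norm_div, Complex.norm_real, norm_norm, div_self h0]

lemma VCT_u1 (ξ : II → ℂ) (h : ip ξ ξ = 1) (i : II) : ‖ξ i‖ ≤ 1 := by
  have h1 : ip ξ ξ = ((∑ i, ‖ξ i‖ ^ 2 : ℝ) : ℂ) := by
    unfold ip
    push_cast
    refine Finset.sum_congr rfl fun i _ => ?_
    rw [Complex.conj_mul']
  rw [h] at h1
  have h2 : (∑ i, ‖ξ i‖ ^ 2 : ℝ) = 1 := by exact_mod_cast h1.symm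
  have h3 : ‖ξ i‖ ^ 2 ≤ ∑ i, ‖ξ i‖ ^ 2 :=
    Finset.single_le_sum (f := fun i => ‖ξ i‖ ^ 2) (fun j _ => sq_nonneg _) (Finset.mem_univ i)
  rw [h2] at h3
  nlinarith [norm_nonneg (ξ i)]

lemma VCT_det (C ε : ℝ) (hε : 0 < ε) : ∃ η : ℝ, 0 < η ∧ ∀ f g : II → II → ℂ,
    (∀ i j, ‖f i j‖ ≤ C) → (∀ i j, ‖g i j‖ ≤ C) → (∀ i j, ‖f i j - g i j‖ < η) →
    ‖(Matrix.of f).det - (Matrix.of g).det‖ < ε := by
  have hc : Continuous (fun f : II → II → ℂ => (Matrix.of f).det) := by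
    apply Continuous.matrix_det
    exact continuous_id
  have hK : IsCompact (Metric.closedBall (0 : II → II → ℂ) (max C 0)) := isCompact_closedBall _ _
  have hu := hK.uniformContinuousOn_of_continuous hc.continuousOn
  obtain ⟨η, hη, h⟩ := Metric.uniformContinuousOn_iff.1 hu ε hε
  refine ⟨η, hη, fun f g hf hg hfg => ?_⟩
  have hm : ∀ f : II → II → ℂ, (∀ i j, ‖f i j‖ ≤ C) →
      f ∈ Metric.closedBall (0 : II → II → ℂ) (max C 0) := by
    intro f hf
    rw [mem_closedBall_zero_iff, pi_norm_le_iff_of_nonneg (le_max_right _ _)]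
    intro i
    rw [pi_norm_le_iff_of_nonneg (le_max_right _ _)]
    intro j
    exact (hf i j).trans (le_max_left _ _)
  have h1 := h f (hm f hf) g (hm g hg) ?_
  · rwa [dist_eq_norm] at h1
  · rw [dist_pi_lt_iff hη]
    intro i
    rw [dist_pi_lt_iff hη]
    intro j
    rw [dist_eq_norm]
    exact hfg i j

lemma VCT_mv (A A' : Matrix II II ℂ) (u u' : II → ℂ) (p : ℂ) (C e : ℝ)
    (hA : ∀ i j, ‖A i j‖ ≤ C) (hA' : ∀ i j, ‖A' i j - A i j‖ ≤ e) (hu' : ∀ i, ‖u' i‖ ≤ 1)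
    (hd : ∀ i, ‖u' i - p * u i‖ ≤ 2 * e) (i : II) :
    ‖A'.mulVec u' i - p * A.mulVec u i‖ ≤ cI * (e + C * (2 * e)) := by
  have e1 : A'.mulVec u' i - p * A.mulVec u i =
      ∑ l, ((A' i l - A i l) * u' l + A i l * (u' l - p * u l)) := by
    simp only [Matrix.mulVec, dotProduct, Finset.mul_sum, ← Finset.sum_sub_distrib]
    refine Finset.sum_congr rfl fun l _ => ?_
    ring
  rw [e1]
  have h2 : ∀ l ∈ Finset.univ, ‖(A' i l - A i l) * u' l + A i l * (u' l - p * u l)‖ ≤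
      e + C * (2 * e) := by
    intro l _
    refine (norm_add_le _ _).trans (add_le_add ?_ ?_)
    · rw [norm_mul]
      have he : 0 ≤ e := (norm_nonneg _).trans (hA' i l)
      calc _ ≤ e * 1 := mul_le_mul (hA' i l) (hu' l) (norm_nonneg _) he
        _ = e := mul_one e
    · rw [norm_mul]
      have hC : 0 ≤ C := (norm_nonneg _).trans (hA i l)
      exact mul_le_mul (hA i l) (hd l) (norm_nonneg _) hC
  refine (norm_sum_le _ _).trans ((Finset.sum_le_sum h2).trans (le_of_eq ?_))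
  rw [Finset.sum_const, Finset.card_univ, nsmul_eq_mul]
  rfl

lemma VCT_mvb (A : Matrix II II ℂ) (u : II → ℂ) (C : ℝ) (hA : ∀ i j, ‖A i j‖ ≤ C)
    (hu : ∀ i, ‖u i‖ ≤ 1) (i : II) : ‖A.mulVec u i‖ ≤ cI * C := by
  have h2 : ∀ l ∈ Finset.univ, ‖A i l * u l‖ ≤ C := by
    intro l _
    rw [norm_mul]
    have hC : 0 ≤ C := (norm_nonneg _).trans (hA i l)
    calc _ ≤ C * 1 := mul_le_mul (hA i l) (hu l) (norm_nonneg _) hC
      _ = C := mul_one C
  unfold Matrix.mulVec dotProduct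
  refine (norm_sum_le _ _).trans ((Finset.sum_le_sum h2).trans (le_of_eq ?_))
  rw [Finset.sum_const, Finset.card_univ, nsmul_eq_mul]
  rfl

lemma VCT_kk (hNum : SNum) (ξ ξ' : Fin (hh + 1) → II → ℂ) :
    kk ξ ξ' ^ 3 = ∏ j : II, ph (ip (ξ j.1) (ξ' j.1)) := by
  unfold kk
  rw [Fintype.prod_sigma, ← Finset.prod_pow]
  refine Finset.prod_congr rfl fun v _ => ?_
  simp only [Finset.prod_const, Finset.card_univ, Fintype.card_fin]
  rw [← pow_mul, Nat.div_mul_cancel (hNum.2.2.2 v)]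

lemma VCT_genE (j : II) (hj : j ≠ istar) :
    gen (Sum.inl (j, bas j.1)) = gE j (bas j.1) := by
  unfold gen
  exact if_pos ⟨rfl, by simp [hj, bas_ne_istar]⟩

lemma VCT_genY (k : Fin 3) : gen (Sum.inr (Sum.inl (k, false))) = gY k := by
  simp [gen]

lemma VCT_colE (θ : Anti) (x : SS) (ξ : Fin (hh + 1) → II → ℂ) (c : Fin 3 → ℂ) (i j : II)
    (hj : j ≠ istar) : VV θ x ξ c i j =
      (RR θ x (gen (Sum.inl (j, bas j.1)))).mulVec (ξ j.1) i := by
  rw [VCT_genE j hj]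
  unfold VV
  rw [if_neg hj]

lemma VCT_colY (θ : Anti) (x : SS) (ξ : Fin (hh + 1) → II → ℂ) (c : Fin 3 → ℂ) (i : II) :
    VV θ x ξ c i istar =
      ∑ k, conj (c k) * (RR θ x (gen (Sum.inr (Sum.inl (k, false))))).mulVec (ξ 0) i := by
  simp only [VCT_genY]
  unfold VV
  rw [if_pos rfl]

lemma VCT_c1 (c : Fin 3 → ℂ) (h : ∑ k, ‖c k‖ ^ 2 = 1) (k : Fin 3) : ‖c k‖ ≤ 1 := by
  have h3 : ‖c k‖ ^ 2 ≤ ∑ i, ‖c i‖ ^ 2 :=
    Finset.single_le_sum (f := fun i => ‖c i‖ ^ 2) (fun j _ => sq_nonneg _) (Finset.mem_univ k)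
  rw [h] at h3
  nlinarith [norm_nonneg (c k)]

lemma VCT_bd (θ : Anti) (x : SS) (ξ : Fin (hh + 1) → II → ℂ) (c : Fin 3 → ℂ) (C : ℝ)
    (hC0 : 0 ≤ C) (hC : ∀ g i j, ‖RR θ x (gen g) i j‖ ≤ C) (hf : IsFrame θ x ξ c) (i j : II) :
    ‖VV θ x ξ c i j‖ ≤ 3 * (cI * C) := by
  obtain ⟨f1, f2, f3, f4, f5⟩ := hf
  have h0 : 0 ≤ (cI : ℝ) * C := by positivity
  by_cases hj : j = istar
  · subst hj
    rw [VCT_colY]
    have h2 : ∀ k ∈ (Finset.univ : Finset (Fin 3)), ‖conj (c k) *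
        (RR θ x (gen (Sum.inr (Sum.inl (k, false))))).mulVec (ξ 0) i‖ ≤ cI * C := by
      intro k _
      rw [norm_mul, Complex.norm_conj]
      have h3 := VCT_mvb (RR θ x (gen (Sum.inr (Sum.inl (k, false))))) (ξ 0) C (hC _)
        (VCT_u1 _ (f1 0)) i
      have h4 := VCT_c1 c f4 k
      calc _ ≤ 1 * (cI * C) := mul_le_mul h4 h3 (norm_nonneg _) zero_le_one
        _ = cI * C := one_mul _
    refine (norm_sum_le _ _).trans ((Finset.sum_le_sum h2).trans (le_of_eq ?_))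
    rw [Finset.sum_const, Finset.card_univ, nsmul_eq_mul, Fintype.card_fin]
    norm_num
  · rw [VCT_colE _ _ _ _ _ _ hj]
    have h3 := VCT_mvb (RR θ x (gen (Sum.inl (j, bas j.1)))) (ξ j.1) C (hC _)
        (VCT_u1 _ (f1 _)) i
    linarith

theorem sVct (hNum : SNum) (hFrc : SFrc) (hRr1 : SRr1) (hUnc : SUnc) (_hVun : SVun)
    (hGen : SGen) : SVct := by
  intro θ ε hε
  -- the bounded family
  have hcont : Continuous (fun x : SS => (fun (g : Gx) (i j : II) => RR θ x (gen g) i j)) := by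
    refine continuous_pi fun g => continuous_pi fun i => continuous_pi fun j => ?_
    exact (hRr1 θ).1 (gen g) (hGen.1 g).2 i j
  obtain ⟨C, hC⟩ := isCompact_univ.exists_bound_of_continuousOn (f := fun x : SS =>
    (fun (g : Gx) (i j : II) => RR θ x (gen g) i j)) hcont.continuousOn
  have hC' : ∀ x g i j, ‖RR θ x (gen g) i j‖ ≤ C := fun x g i j =>
    (((norm_le_pi_norm _ j).trans (norm_le_pi_norm _ i)).trans (norm_le_pi_norm _ g)).trans
      (hC x (Set.mem_univ _))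
  have hC0 : 0 ≤ C := (norm_nonneg _).trans
    (hC' (Classical.arbitrary SS) (Sum.inr (Sum.inl (0, false))) istar istar)
  obtain ⟨η, hη, hdet⟩ := VCT_det (3 * (cI * C)) ε hε
  have hcI : (0 : ℝ) ≤ cI := Nat.cast_nonneg _
  obtain ⟨K, hK⟩ : ∃ K : ℝ, K = 3 * (cI * C) + 3 * (cI * (1 + C * 2)) := ⟨_, rfl⟩
  have hK0 : 0 ≤ K := by rw [hK]; positivity
  obtain ⟨e, he, heK⟩ : ∃ e : ℝ, 0 < e ∧ K * e < η := by
    refine ⟨η / (K + 1), by positivity, ?_⟩
    rw [mul_div_assoc', div_lt_iff₀ (by linarith)]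
    nlinarith
  obtain ⟨n1, δ1, hδ1, h1⟩ := hFrc θ e he
  obtain ⟨n2, δ2, hδ2, h2⟩ := hUnc.2.2 (Gx → II → II → ℂ) _ hcont e he
  refine ⟨max n1 n2, min δ1 δ2, lt_min hδ1 hδ2, ?_⟩
  intro x hx x' hx' hcl ξ c ξ' c' hf hf'
  have hcl1 : Close n1 δ1 x x' := fun j hj =>
    (hcl j (lt_of_lt_of_le hj (le_max_left _ _))).trans_le (min_le_left _ _)
  have hcl2 : Close n2 δ2 x x' := fun j hj =>
    (hcl j (lt_of_lt_of_le hj (le_max_right _ _))).trans_le (min_le_right _ _)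
  obtain ⟨hc1, hv1⟩ := h1 x hx x' hx' hcl1 ξ c ξ' c' hf hf'
  have hR0 := h2 x x' hcl2
  have hR : ∀ g i j, ‖RR θ x' (gen g) i j - RR θ x (gen g) i j‖ ≤ e := by
    intro g i j
    rw [norm_sub_rev]
    refine le_trans ?_ hR0.le
    obtain ⟨D, hD⟩ : ∃ D : Gx → II → II → ℂ, D = (fun (g : Gx) (i j : II) => RR θ x (gen g) i j) -
        (fun (g : Gx) (i j : II) => RR θ x' (gen g) i j) := ⟨_, rfl⟩
    rw [← hD]
    have e1 : RR θ x (gen g) i j - RR θ x' (gen g) i j = D g i j := by rw [hD]; rfl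
    rw [e1]
    exact ((norm_le_pi_norm (D g i) j).trans (norm_le_pi_norm (D g) i)).trans
      (norm_le_pi_norm D g)
  obtain ⟨p, hp⟩ : ∃ p : Fin (hh + 1) → ℂ, p = fun v => ph (ip (ξ v) (ξ' v)) := ⟨_, rfl⟩
  have hp1 : ∀ v, ‖p v‖ = 1 := fun v => by rw [hp]; exact VCT_ph_norm _
  have hd : ∀ v i, ‖ξ' v i - p v * ξ v i‖ ≤ 2 * e := by
    intro v i
    have e1 : ξ' v i - p v * ξ v i = (ξ' v i - ip (ξ v) (ξ' v) * ξ v i) +
        (ip (ξ v) (ξ' v) - p v) * ξ v i := by ring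
    rw [e1]
    have e2 : ‖(ip (ξ v) (ξ' v) - p v) * ξ v i‖ ≤ e := by
      rw [norm_mul]
      have e3 : ‖ip (ξ v) (ξ' v) - p v‖ ≤ e := by
        rw [hp]
        simp only
        rw [VCT_ph]
        exact (hv1 v).2.le
      calc _ ≤ e * 1 := mul_le_mul e3 (VCT_u1 _ (hf.1 v) i) (norm_nonneg _) he.le
        _ = e := mul_one e
    have := norm_add_le (ξ' v i - ip (ξ v) (ξ' v) * ξ v i) ((ip (ξ v) (ξ' v) - p v) * ξ v i)
    have := (hv1 v).1 i
    linarith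
  have hkk : (VV θ x ξ c).det * kk ξ ξ' ^ 3 =
      (Matrix.of fun i j : II => p j.1 * VV θ x ξ c i j).det := by
    rw [VCT_kk hNum, Matrix.det_mul_row (fun j : II => p j.1), mul_comm, hp]
  rw [hkk]
  refine hdet (fun i j => VV θ x' ξ' c' i j) (fun i j => p j.1 * VV θ x ξ c i j) ?_ ?_ ?_
  · exact fun i j => VCT_bd θ x' ξ' c' C hC0 (hC' x') hf' i j
  · intro i j
    rw [norm_mul, hp1, one_mul]
    exact VCT_bd θ x ξ c C hC0 (hC' x) hf i j
  · intro i j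
    refine lt_of_le_of_lt ?_ heK
    have hm : ∀ g v, ‖(RR θ x' (gen g)).mulVec (ξ' v) i -
        p v * (RR θ x (gen g)).mulVec (ξ v) i‖ ≤ cI * (e + C * (2 * e)) := fun g v =>
      VCT_mv _ _ _ _ _ _ _ (hC' x g) (hR g) (VCT_u1 _ (hf'.1 v)) (hd v) i
    have hpos1 : 0 ≤ (cI : ℝ) * C * e := by positivity
    have hpos2 : 0 ≤ (cI : ℝ) * (e + C * (2 * e)) := by positivity
    by_cases hj : j = istar
    · subst hj
      rw [VCT_colY, VCT_colY, Finset.mul_sum, ← Finset.sum_sub_distrib]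
      have h3 : ∀ k ∈ (Finset.univ : Finset (Fin 3)), ‖conj (c' k) *
          (RR θ x' (gen (Sum.inr (Sum.inl (k, false))))).mulVec (ξ' 0) i -
          p istar.fst * (conj (c k) *
            (RR θ x (gen (Sum.inr (Sum.inl (k, false))))).mulVec (ξ 0) i)‖ ≤
          cI * C * e + cI * (e + C * (2 * e)) := by
        intro k _
        have e1 : conj (c' k) * (RR θ x' (gen (Sum.inr (Sum.inl (k, false))))).mulVec (ξ' 0) i -
            p istar.fst * (conj (c k) *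
            (RR θ x (gen (Sum.inr (Sum.inl (k, false))))).mulVec (ξ 0) i) =
            conj (c' k - c k) *
              (RR θ x' (gen (Sum.inr (Sum.inl (k, false))))).mulVec (ξ' 0) i +
            conj (c k) * ((RR θ x' (gen (Sum.inr (Sum.inl (k, false))))).mulVec (ξ' 0) i -
              p 0 * (RR θ x (gen (Sum.inr (Sum.inl (k, false))))).mulVec (ξ 0) i) := by
          have : istar.fst = 0 := rfl
          rw [this, map_sub]
          ring
        rw [e1]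
        refine (norm_add_le _ _).trans (add_le_add ?_ ?_)
        · rw [norm_mul, Complex.norm_conj]
          have h4 := VCT_mvb (RR θ x' (gen (Sum.inr (Sum.inl (k, false))))) (ξ' 0) C (hC' x' _)
            (VCT_u1 _ (hf'.1 0)) i
          calc _ ≤ e * (cI * C) := mul_le_mul (hc1 k).le h4 (norm_nonneg _) he.le
            _ = cI * C * e := by ring
        · rw [norm_mul, Complex.norm_conj]
          have h4 := VCT_c1 c hf.2.2.2.1 k
          calc _ ≤ 1 * (cI * (e + C * (2 * e))) :=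
                mul_le_mul h4 (hm _ 0) (norm_nonneg _) zero_le_one
            _ = _ := one_mul _
      refine (norm_sum_le _ _).trans ((Finset.sum_le_sum h3).trans (le_of_eq ?_))
      rw [Finset.sum_const, Finset.card_univ, nsmul_eq_mul, Fintype.card_fin, hK]
      push_cast
      ring
    · rw [VCT_colE _ _ _ _ _ _ hj, VCT_colE _ _ _ _ _ _ hj]
      refine (hm _ _).trans ?_
      rw [hK]
      nlinarith

end Pool.OPP
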